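import Pool.Agent.H449R2.Fl.K7Fin

set_option autoImplicit false

open Finset

namespace Pool.Agent.H449R2.Moved.CodegreeSquares

/-- The codegree of `a` and `b` in `G`: the number of points `c` with `{a, b, c}` in `G`. -/
def codeg {n : ℕ} (G : Finset (Finset (Fin n))) (a b : Fin n) : ℕ :=
  (univ.filter fun c => ({a, b, c} : Finset (Fin n)) ∈ G).card

/-- The number of four-element sets of points containing no triple of `G`. -/
def emptyFour {n : ℕ} (G : Finset (Finset (Fin n))) : ℕ :=
  (((univ : Finset (Fin n)).powersetCard 4).filter fun Q => ∀ t ∈ G, ¬ t ⊆ Q).card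

theorem six_choose (n : ℕ) : 6 * n.choose 3 + 3 * n ^ 2 = n ^ 3 + 2 * n := by
  have h := Nat.descFactorial_eq_factorial_mul_choose n 3
  have h6 : Nat.factorial 3 = 6 := rfl
  rw [h6] at h
  rw [← h]
  rcases n with _ | _ | n
  · rfl
  · rfl
  · simp only [Nat.descFactorial_succ, Nat.descFactorial_zero, mul_one, Nat.sub_zero]
    have e1 : n + 1 + 1 - 2 = n := by omega
    have e2 : n + 1 + 1 - 1 = n + 1 := by omega
    rw [e1, e2]
    ring

open Pool.Agent.H449R2.Fl

theorem deg_eq {n : ℕ} (H : Finset (Finset (Fin n))) (a b : Fin n) :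
    ∑ c, (ind H a b c : ℤ) = codeg H a b := by
  unfold ind codeg
  rw [card_filter]
  push_cast
  rfl

theorem codeg_self {n : ℕ} {H : Finset (Finset (Fin n))} (h3 : ∀ t ∈ H, t.card = 3)
    (a : Fin n) : codeg H a a = 0 := by
  unfold codeg
  rw [card_eq_zero, filter_eq_empty_iff]
  intro c _ hc
  have h6 := h3 _ hc
  rw [Finset.insert_eq_of_mem (Finset.mem_insert_self a {c})] at h6
  have h7 := Finset.card_le_two (a := a) (b := c)
  omega

/-- For every family `G` of triples on `n` points, with codegrees `D(a, b)`,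
`8 n⁴ + 18 ∑ D(a, b)² ≤ 162 n |G| + 63 n³ + 432 Z`, the sum over all ordered pairs of points, where
`Z` is the number of four-element sets containing no triple of `G`. -/
theorem result (n : ℕ) (G : Finset (Finset (Fin n))) (h3 : ∀ t ∈ G, t.card = 3) :
    8 * n ^ 4 + 18 * ∑ a, ∑ b, codeg G a b ^ 2 ≤
      162 * n * G.card + 63 * n ^ 3 + 432 * emptyFour G := by
  classical
  set H : Finset (Finset (Fin n)) := (univ.powersetCard 3) \ G with hH
  have hH3 : ∀ t ∈ H, t.card = 3 := fun t ht => (mem_powersetCard.mp (mem_sdiff.mp ht).1).2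
  have hmem : ∀ t : Finset (Fin n), t.card = 3 → (t ∈ H ↔ t ∉ G) := fun t ht => by
    rw [hH, mem_sdiff, mem_powersetCard]
    exact ⟨fun h => h.2, fun h => ⟨⟨subset_univ _, ht⟩, h⟩⟩
  have hmain := K7.main hH3
  simp only [deg_eq, Fintype.card_fin] at hmain
  have hcard : H.card + G.card = n.choose 3 := by
    rw [hH, card_sdiff_add_card_eq_card, card_powersetCard, card_univ, Fintype.card_fin]
    intro t ht
    rw [mem_powersetCard]
    exact ⟨subset_univ _, h3 t ht⟩
  have hZ : J4.N4 H ≤ emptyFour G := by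
    refine card_le_card ?_
    intro Q hQ
    rw [mem_filter] at hQ
    rw [mem_filter, mem_powersetCard]
    refine ⟨⟨subset_univ _, hQ.2.1⟩, ?_⟩
    intro t ht htQ
    have h1 := hQ.2.2 (mem_powersetCard.mpr ⟨htQ, h3 t ht⟩)
    exact (hmem t (h3 t ht)).mp h1 ht
  have hcod : ∀ a b : Fin n, a ≠ b → codeg H a b + codeg G a b + 2 = n := by
    intro a b hab
    have h1 : (univ.filter fun c => ({a, b, c} : Finset (Fin n)) ∈ H) ∪
        ((univ.filter fun c => ({a, b, c} : Finset (Fin n)) ∈ G) ∪ {a, b}) = univ := by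
      ext c
      simp only [mem_union, mem_filter, mem_univ, true_and, mem_insert, mem_singleton, iff_true]
      by_cases hc : c = a ∨ c = b
      · exact Or.inr (Or.inr hc)
      · push Not at hc
        have hcard3 : ({a, b, c} : Finset (Fin n)).card = 3 :=
          Finset.card_eq_three.mpr ⟨a, b, c, hab, hc.1.symm, hc.2.symm, rfl⟩
        by_cases hG : ({a, b, c} : Finset (Fin n)) ∈ G
        · exact Or.inr (Or.inl hG)
        · exact Or.inl ((hmem _ hcard3).mpr hG)
    have hnot : ∀ F : Finset (Finset (Fin n)), (∀ t ∈ F, t.card = 3) →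
        ∀ c, ({a, b, c} : Finset (Fin n)) ∈ F → c ≠ a ∧ c ≠ b := by
      intro F hF c hc
      have hk := hF _ hc
      constructor
      · rintro rfl
        have : ({c, b, c} : Finset (Fin n)) = {c, b} := by
          ext z; simp only [mem_insert, mem_singleton]; tauto
        rw [this] at hk
        have := Finset.card_le_two (a := c) (b := b)
        omega
      · rintro rfl
        have : ({a, c, c} : Finset (Fin n)) = {a, c} := by
          ext z; simp only [mem_insert, mem_singleton]; tauto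
        rw [this] at hk
        have := Finset.card_le_two (a := a) (b := c)
        omega
    have d1 : Disjoint (univ.filter fun c => ({a, b, c} : Finset (Fin n)) ∈ G) ({a, b}) := by
      rw [disjoint_left]
      intro c hc hc'
      rw [mem_filter] at hc
      have := hnot G h3 c hc.2
      simp only [mem_insert, mem_singleton] at hc'
      tauto
    have d2 : Disjoint (univ.filter fun c => ({a, b, c} : Finset (Fin n)) ∈ H)
        ((univ.filter fun c => ({a, b, c} : Finset (Fin n)) ∈ G) ∪ {a, b}) := by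
      rw [disjoint_left]
      intro c hc hc'
      rw [mem_filter] at hc
      rw [mem_union, mem_filter] at hc'
      rcases hc' with hc' | hc'
      · exact (hmem _ (h3 _ hc'.2)).mp hc.2 hc'.2
      · have := hnot H hH3 c hc.2
        simp only [mem_insert, mem_singleton] at hc'
        tauto
    have h2 := congrArg Finset.card h1
    rw [card_union_of_disjoint d2, card_union_of_disjoint d1, card_pair hab, card_univ,
      Fintype.card_fin] at h2
    unfold codeg
    omega
  -- sums of codegrees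
  have hsumG : ∑ a : Fin n, ∑ b : Fin n, (codeg G a b : ℤ) = 6 * (G.card : ℤ) := by
    have h := sum_ind h3
    have h' : ∑ a : Fin n, ∑ b : Fin n, ∑ c : Fin n, (ind G a b c : ℤ) = 6 * (G.card : ℤ) := by
      exact_mod_cast h
    simp only [deg_eq] at h'
    exact h'
  have hpt : ∀ a b : Fin n, (codeg H a b : ℤ) ^ 2 = (codeg G a b : ℤ) ^ 2 -
      2 * ((n : ℤ) - 2) * (codeg G a b : ℤ) + (if a = b then 0 else ((n : ℤ) - 2) ^ 2) := by
    intro a b
    by_cases hab : a = b
    · subst hab
      rw [codeg_self hH3, codeg_self h3]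
      simp
    · rw [if_neg hab]
      have h := hcod a b hab
      have h' : (codeg H a b : ℤ) = (n : ℤ) - 2 - codeg G a b := by
        have : (codeg H a b : ℤ) + codeg G a b + 2 = n := by exact_mod_cast h
        linarith
      rw [h']
      ring
  have hdiag : ∑ a : Fin n, ∑ b : Fin n, (if a = b then (0 : ℤ) else ((n : ℤ) - 2) ^ 2) =
      ((n : ℤ) ^ 2 - n) * ((n : ℤ) - 2) ^ 2 := by
    have h1 : ∀ a b : Fin n, (if a = b then (0 : ℤ) else ((n : ℤ) - 2) ^ 2) =
        ((n : ℤ) - 2) ^ 2 - (if a = b then ((n : ℤ) - 2) ^ 2 else 0) := by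
      intro a b; split_ifs <;> ring
    simp only [h1, sum_sub_distrib, sum_const, card_univ, Fintype.card_fin, nsmul_eq_mul,
      Finset.sum_ite_eq, mem_univ, if_true]
    ring
  have hsumH : ∑ a : Fin n, ∑ b : Fin n, (codeg H a b : ℤ) ^ 2 =
      ∑ a : Fin n, ∑ b : Fin n, (codeg G a b : ℤ) ^ 2 - 2 * ((n : ℤ) - 2) * (6 * (G.card : ℤ)) +
        ((n : ℤ) ^ 2 - n) * ((n : ℤ) - 2) ^ 2 := by
    simp only [hpt, sum_add_distrib, sum_sub_distrib, ← mul_sum]
    rw [hdiag, hsumG]
  rw [hsumH] at hmain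
  have h6 := six_choose n
  have e1 : 54 * n * H.card + 54 * n * G.card + 27 * n ^ 3 = 9 * n ^ 4 + 18 * n ^ 2 := by
    calc 54 * n * H.card + 54 * n * G.card + 27 * n ^ 3
        = 9 * n * (6 * (H.card + G.card) + 3 * n ^ 2) := by ring
      _ = 9 * n * (n ^ 3 + 2 * n) := by rw [hcard, h6]
      _ = 9 * n ^ 4 + 18 * n ^ 2 := by ring
  have e1' : 54 * (n : ℤ) * H.card + 54 * (n : ℤ) * G.card + 27 * (n : ℤ) ^ 3 =
      9 * (n : ℤ) ^ 4 + 18 * (n : ℤ) ^ 2 := by exact_mod_cast e1
  have g1 : (432 : ℤ) * (J4.N4 H : ℤ) ≤ 432 * (emptyFour G : ℤ) := by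
    have : (J4.N4 H : ℤ) ≤ (emptyFour G : ℤ) := by exact_mod_cast hZ
    linarith
  have hn : 126 * (n : ℤ) ^ 2 ≥ 72 * (n : ℤ) := by
    rcases Nat.eq_zero_or_pos n with h0 | h0
    · subst h0; simp
    · have : (1 : ℤ) ≤ n := by exact_mod_cast h0
      nlinarith
  have hG0 : (0 : ℤ) ≤ G.card := by positivity
  have hfin : 8 * (n : ℤ) ^ 4 + 18 * ∑ a : Fin n, ∑ b : Fin n, (codeg G a b : ℤ) ^ 2 ≤
      162 * (n : ℤ) * G.card + 63 * (n : ℤ) ^ 3 + 432 * (emptyFour G : ℤ) := by
    nlinarith
  exact_mod_cast hfin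

end Pool.Agent.H449R2.Moved.CodegreeSquares
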