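import Pool.Agent.H122R2.N6.OneEdge

/-!
# Turán's (4,3) covering problem up to the quadruples with exactly three hyperedges

If `H` is a family of triples of `n` points such that every 4-set of points contains a member of
`H`, then `4 n^4 + 18 n^2 ≤ 54 n |H| + 27 n^3 + 48 N_3(H)`, where `N_3(H)` is the number of 4-sets
that contain exactly three members of `H`.
-/

set_option autoImplicit false
open Finset
open scoped Classical

namespace Pool.Agent.H449R2.Moved.ThreeEdgeQuadruples

/-- The number of 4-sets of vertices which contain exactly three hyperedges of `H`. -/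
noncomputable def threeEdgeQuadruples {n : ℕ} (H : Finset (Finset (Fin n))) : ℕ :=
  (((univ : Finset (Fin n)).powersetCard 4).filter fun S => (H.filter (· ⊆ S)).card = 3).card

/-- A covering family `H` of triples of `n` points satisfies
`4 n^4 + 18 n^2 ≤ 54 n |H| + 27 n^3 + 48 N_3(H)`. -/
theorem result (n : ℕ) (H : Finset (Finset (Fin n))) (h3 : ∀ e ∈ H, e.card = 3)
    (hF : ∀ S : Finset (Fin n), S.card = 4 → ∃ e ∈ H, e ⊆ S) :
    4 * n ^ 4 + 18 * n ^ 2 ≤ 54 * n * H.card + 27 * n ^ 3 + 48 * threeEdgeQuadruples H := by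
  set G : Finset (Finset (Fin n)) := (univ : Finset (Fin n)).powersetCard 3 \ H with hG
  have hG3 : ∀ e ∈ G, e.card = 3 := fun e he =>
    (mem_powersetCard.mp (mem_sdiff.mp he).1).2
  have hGF : H122R2.N6.K43Free G := by
    intro S hS
    obtain ⟨e, he, hes⟩ := hF S hS
    exact ⟨e, hes, h3 e he, fun h => (mem_sdiff.mp h).2 he⟩
  have key := H122R2.N6.one_edge n G hG3 hGF
  have hsub : H ⊆ (univ : Finset (Fin n)).powersetCard 3 := fun e he =>
    mem_powersetCard.mpr ⟨subset_univ _, h3 e he⟩
  have hcard : G.card + H.card = n.choose 3 := by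
    rw [hG, card_sdiff_add_card_eq_card hsub, card_powersetCard, card_univ, Fintype.card_fin]
  have hN : H122R2.N6.oneEdge G = threeEdgeQuadruples H := by
    have hN0 : H122R2.N6.oneEdge G = (((univ : Finset (Fin n)).powersetCard 4).filter
        fun S => (G.filter (· ⊆ S)).card = 1).card := by
      unfold H122R2.N6.oneEdge
      congr!
    rw [hN0]
    unfold threeEdgeQuadruples
    congr 1
    refine filter_congr fun S hS => ?_
    have hS4 := (mem_powersetCard.mp hS).2
    have h4 : (G.filter (· ⊆ S)).card + (H.filter (· ⊆ S)).card = 4 := by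
      have hu : (S.powersetCard 3).card = 4 := by rw [card_powersetCard, hS4]; rfl
      rw [← hu, ← card_union_of_disjoint]
      · congr 1
        ext e
        simp only [mem_union, mem_filter, mem_powersetCard, hG, mem_sdiff]
        constructor
        · rintro (⟨⟨⟨_, h⟩, _⟩, hs⟩ | ⟨h, hs⟩)
          · exact ⟨hs, h⟩
          · exact ⟨hs, h3 e h⟩
        · rintro ⟨hs, h⟩
          by_cases heH : e ∈ H
          · exact Or.inr ⟨heH, hs⟩
          · exact Or.inl ⟨⟨⟨subset_univ _, h⟩, heH⟩, hs⟩
      · refine disjoint_filter_filter ?_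
        rw [hG]
        exact sdiff_disjoint
    omega
  rw [hN] at key
  have hch : 6 * n.choose 3 + 3 * n ^ 2 = n ^ 3 + 2 * n := by
    have h1 := Nat.descFactorial_eq_factorial_mul_choose n 3
    have h2 : Nat.factorial 3 = 6 := rfl
    rw [h2] at h1
    rw [← h1]
    rcases n with _ | _ | n
    · rfl
    · rfl
    · simp only [Nat.descFactorial]
      have e1 : n + 1 + 1 - 2 = n := by omega
      have e2 : n + 1 + 1 - 1 = n + 1 := by omega
      rw [e1, e2, Nat.sub_zero]
      ring
  have h6 : 54 * n * G.card + 54 * n * H.card = 9 * n * (6 * n.choose 3) := by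
    rw [← hcard]; ring
  have h7 : 9 * n * (6 * n.choose 3) + 27 * n ^ 3 = 9 * n ^ 4 + 18 * n ^ 2 := by
    calc 9 * n * (6 * n.choose 3) + 27 * n ^ 3 = 9 * n * (6 * n.choose 3 + 3 * n ^ 2) := by ring
      _ = 9 * n ^ 4 + 18 * n ^ 2 := by rw [hch]; ring
  generalize n ^ 4 = a at *
  generalize n ^ 3 = b at *
  generalize n ^ 2 = c at *
  generalize 54 * n * G.card = x at *
  generalize 54 * n * H.card = y at *
  generalize 9 * n * (6 * n.choose 3) = z at *
  generalize threeEdgeQuadruples H = w at *
  omega

end Pool.Agent.H449R2.Moved.ThreeEdgeQuadruples
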